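import Pool.Agent.Q135.Srt.Cuts

/-! Sortedness of optimal two-coalition structures under average-distance costs (helper135). -/

namespace Pool.Agent.Results.MP_e22fa6_co.SortedOptimum

open Finset Q135.Srt
open scoped ENNReal

/-- A coalition structure with at most two coalitions is given by a colouring `f` of the agents
with two colours; this is the coalition of the agent `i`. -/
def coalition {n : ℕ} (f : Fin n → Bool) (i : Fin n) : Finset (Fin n) :=
  univ.filter fun j => f j = f i

/-- Cost of the agent `i` in the coalition `C`: the average distance to the other members, and `t`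
if `C` is a singleton (`t = 0`: HIS, `t = ⊤`: UIS). -/
noncomputable def cost (t : ℝ≥0∞) {n : ℕ} (v : Fin n → ℝ) (C : Finset (Fin n)) (i : Fin n) : ℝ≥0∞ :=
  if C.card = 1 then t
  else ENNReal.ofReal ((∑ j ∈ C.erase i, |v i - v j|) / ((C.card : ℝ) - 1))

/-- Social cost of the structure `f`. -/
noncomputable def socialCost (t : ℝ≥0∞) {n : ℕ} (v : Fin n → ℝ) (f : Fin n → Bool) : ℝ≥0∞ :=
  ∑ i, cost t v (coalition f i) i

/-- The structure `f` is sorted: an agent whose value lies between the values of two members of a
coalition belongs to this coalition. -/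
def IsSorted {n : ℕ} (v : Fin n → ℝ) (f : Fin n → Bool) : Prop :=
  ∀ i j l, f i = f j → v i ≤ v l → v l ≤ v j → f l = f i

theorem up_true : up true = 1 := by simp [up]

theorem up_false : up false = 0 := by simp [up]

theorem sum_up (y : ℕ → Bool) (N : ℕ) : ∑ i ∈ range N, up (y i) = cN y N := by
  induction N with
  | zero => simp [cN]
  | succ N ih => rw [Finset.sum_range_succ, ih, cN_up]

theorem lin_sum (w : ℕ → ℝ) (y : ℕ → Bool) (N : ℕ) :
    ∑ i ∈ range N, up (y i) * (w N - w i) = ∑ p ∈ range (N + 1), (w p - w (p - 1)) * cN y p := by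
  induction N with
  | zero => simp [cN]
  | succ N ih =>
    rw [Finset.sum_range_succ _ (N + 1), ← ih, Finset.sum_range_succ]
    have : ∑ i ∈ range N, up (y i) * (w (N + 1) - w i) =
        ∑ i ∈ range N, up (y i) * (w N - w i) + (cN y N : ℝ) * (w (N + 1) - w N) := by
      rw [← sum_up, Finset.sum_mul, ← Finset.sum_add_distrib]
      exact Finset.sum_congr rfl fun i _ => by ring
    rw [this, cN_up, Nat.add_sub_cancel]
    ring

theorem pair_sum {w : ℕ → ℝ} (hw : Monotone w) (y : ℕ → Bool) (N : ℕ) :
    ∑ i ∈ range N, up (y i) * ∑ j ∈ range N, up (y j) * |w i - w j| =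
      2 * ∑ p ∈ range N, (w p - w (p - 1)) * (cN y p * (cN y N - cN y p)) := by
  induction N with
  | zero => simp
  | succ N ih =>
    have e1 : ∑ i ∈ range (N + 1), up (y i) * ∑ j ∈ range (N + 1), up (y j) * |w i - w j| =
        ∑ i ∈ range N, up (y i) * ∑ j ∈ range N, up (y j) * |w i - w j| +
          2 * (up (y N) * ∑ i ∈ range N, up (y i) * (w N - w i)) := by
      rw [Finset.sum_range_succ]
      have a : ∀ i ∈ range N, up (y i) * ∑ j ∈ range (N + 1), up (y j) * |w i - w j| =
          up (y i) * ∑ j ∈ range N, up (y j) * |w i - w j| + up (y N) * (up (y i) * (w N - w i)) := by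
        intro i hi
        rw [Finset.sum_range_succ, abs_sub_comm,
          abs_of_nonneg (sub_nonneg.2 (hw (Finset.mem_range.1 hi).le))]
        ring
      have b : ∑ j ∈ range (N + 1), up (y j) * |w N - w j| =
          ∑ j ∈ range N, up (y j) * (w N - w j) := by
        rw [Finset.sum_range_succ, sub_self, abs_zero, mul_zero, add_zero]
        refine Finset.sum_congr rfl fun j hj => ?_
        rw [abs_of_nonneg (sub_nonneg.2 (hw (Finset.mem_range.1 hj).le))]
      rw [Finset.sum_congr rfl a, b, Finset.sum_add_distrib, Finset.mul_sum]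
      ring
    rw [e1, ih, lin_sum]
    have e2 : ∑ p ∈ range (N + 1), (w p - w (p - 1)) * (cN y p * (cN y (N + 1) - cN y p)) =
        ∑ p ∈ range N, (w p - w (p - 1)) * (cN y p * (cN y N - cN y p)) +
          up (y N) * ∑ p ∈ range (N + 1), (w p - w (p - 1)) * cN y p := by
      have c : ∀ p ∈ range (N + 1), (w p - w (p - 1)) * ((cN y p : ℝ) * (cN y (N + 1) - cN y p)) =
          (w p - w (p - 1)) * (cN y p * (cN y N - cN y p)) +
            up (y N) * ((w p - w (p - 1)) * cN y p) := by
        intro p _
        rw [cN_up]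
        ring
      rw [Finset.sum_congr rfl c, Finset.sum_add_distrib, ← Finset.mul_sum, Finset.sum_range_succ _ N]
      ring
    rw [e2]
    ring

/-- Extension of a colouring. -/
def ext {n : ℕ} (f : Fin n → Bool) : ℕ → Bool := fun k => if h : k < n then f ⟨k, h⟩ else false

theorem ext_coe {n : ℕ} (f : Fin n → Bool) (i : Fin n) : ext f i = f i := by
  simp [ext]

theorem card_true (y : ℕ → Bool) (n : ℕ) :
    ((univ : Finset (Fin n)).filter fun j : Fin n => y j = true).card = cN y n := by
  have : (((univ : Finset (Fin n)).filter fun j : Fin n => y j = true).card : ℝ) = cN y n := by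
    rw [← sum_up, Finset.card_filter, Nat.cast_sum, ← Fin.sum_univ_eq_sum_range (fun i => up (y i)) n]
    refine Finset.sum_congr rfl fun i _ => ?_
    cases y i <;> simp [up]
  exact_mod_cast this

theorem card_coal {n : ℕ} (f : Fin n → Bool) (i : Fin n) :
    (coalition f i).card = if f i = true then cN (ext f) n else cN (nt (ext f)) n := by
  cases hi : f i
  · rw [if_neg (by simp), ← card_true]
    refine congrArg Finset.card (Finset.ext fun j => ?_)
    simp only [coalition, Finset.mem_filter, Finset.mem_univ, true_and]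
    simp only [nt]
    rw [ext_coe, hi]
    cases f j <;> simp
  · rw [if_pos rfl, ← card_true]
    refine congrArg Finset.card (Finset.ext fun j => ?_)
    simp only [coalition, Finset.mem_filter, Finset.mem_univ, true_and]
    rw [ext_coe, hi]

/-- Average distance of the agent `i` to the other members of its coalition. -/
noncomputable def r {n : ℕ} (v : Fin n → ℝ) (f : Fin n → Bool) (i : Fin n) : ℝ :=
  (∑ j ∈ (coalition f i).erase i, |v i - v j|) / (((coalition f i).card : ℝ) - 1)

theorem r_nonneg {n : ℕ} (v : Fin n → ℝ) (f : Fin n → Bool) (i : Fin n) : 0 ≤ r v f i := by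
  have : 1 ≤ (coalition f i).card :=
    Finset.card_pos.2 ⟨i, by simp [coalition]⟩
  have h : (1 : ℝ) ≤ (coalition f i).card := by exact_mod_cast this
  exact div_nonneg (Finset.sum_nonneg fun _ _ => abs_nonneg _) (by linarith)

theorem sum_r {n : ℕ} (v : Fin n → ℝ) {w : ℕ → ℝ} (hw : Monotone w) (hv : ∀ i : Fin n, v i = w i)
    (f : Fin n → Bool) :
    ∑ i, r v f i = 2 * G (fun p => w p - w (p - 1)) n (ext f) := by
  set x := ext f with hx
  have e : ∀ i : Fin n, r v f i =
      up (x i) * (∑ j ∈ range n, up (x j) * |w i - w j|) / ((cN x n : ℝ) - 1) +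
      up (nt x i) * (∑ j ∈ range n, up (nt x j) * |w i - w j|) / ((cN (nt x) n : ℝ) - 1) := by
    intro i
    have a : ∑ j ∈ (coalition f i).erase i, |v i - v j| =
        ∑ j : Fin n, if f j = f i then |w i - w j| else 0 := by
      rw [Finset.sum_erase]
      · simp only [coalition]
        rw [Finset.sum_filter]
        exact Finset.sum_congr rfl fun j _ => by rw [hv i, hv j]
      · simp
    simp only [r]
    rw [a, card_coal]
    have hxi : x i = f i := ext_coe f i
    cases hi : f i
    · rw [hi] at hxi
      have hn : nt x i = true := nt_false hxi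
      rw [hxi, hn, if_neg (by simp), up_false, up_true, zero_mul, zero_div, zero_add, one_mul]
      congr 1
      rw [← Fin.sum_univ_eq_sum_range (fun j => up (nt x j) * |w i - w j|) n]
      refine Finset.sum_congr rfl fun j _ => ?_
      have hxj : x j = f j := ext_coe f j
      cases hj : f j
      · rw [hj] at hxj
        rw [nt_false hxj, up_true]
        simp
      · rw [hj] at hxj
        rw [nt_true hxj, up_false]
        simp
    · rw [hi] at hxi
      have hn : nt x i = false := nt_true hxi
      rw [hxi, hn, if_pos rfl, up_false, up_true, zero_mul, zero_div, add_zero, one_mul]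
      congr 1
      rw [← Fin.sum_univ_eq_sum_range (fun j => up (x j) * |w i - w j|) n]
      refine Finset.sum_congr rfl fun j _ => ?_
      have hxj : x j = f j := ext_coe f j
      rw [hxj]
      cases f j <;> simp [up]
  rw [Finset.sum_congr rfl fun i _ => e i,
    Fin.sum_univ_eq_sum_range (fun i => up (x i) * (∑ j ∈ range n, up (x j) * |w i - w j|) /
      ((cN x n : ℝ) - 1) + up (nt x i) * (∑ j ∈ range n, up (nt x j) * |w i - w j|) /
      ((cN (nt x) n : ℝ) - 1)) n,
    Finset.sum_add_distrib, ← Finset.sum_div, ← Finset.sum_div, pair_sum hw, pair_sum hw]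
  simp only [G, H]
  rw [mul_div_assoc, mul_div_assoc, ← mul_add, Finset.sum_div, Finset.sum_div,
    ← Finset.sum_add_distrib]
  congr 1
  refine Finset.sum_congr rfl fun p _ => ?_
  ring

theorem sc_his {n : ℕ} (v : Fin n → ℝ) {w : ℕ → ℝ} (hw : Monotone w)
    (hv : ∀ i : Fin n, v i = w i) (f : Fin n → Bool) :
    socialCost 0 v f = ENNReal.ofReal (2 * G (fun p => w p - w (p - 1)) n (ext f)) := by
  rw [← sum_r v hw hv f, ENNReal.ofReal_sum_of_nonneg fun i _ => r_nonneg v f i]
  refine Finset.sum_congr rfl fun i _ => ?_
  simp only [cost, r]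
  split_ifs with h
  · rw [h]
    simp
  · rfl

theorem sc_uis {n : ℕ} (v : Fin n → ℝ) {w : ℕ → ℝ} (hw : Monotone w)
    (hv : ∀ i : Fin n, v i = w i) {f : Fin n → Bool} (t : ℝ≥0∞) (h1 : cN (ext f) n ≠ 1)
    (h2 : cN (nt (ext f)) n ≠ 1) :
    socialCost t v f = ENNReal.ofReal (2 * G (fun p => w p - w (p - 1)) n (ext f)) := by
  rw [← sum_r v hw hv f, ENNReal.ofReal_sum_of_nonneg fun i _ => r_nonneg v f i]
  refine Finset.sum_congr rfl fun i _ => ?_
  simp only [cost, r]
  rw [if_neg]
  rw [card_coal]
  split_ifs
  · exact h1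
  · exact h2

theorem sc_top {n : ℕ} (v : Fin n → ℝ) {f : Fin n → Bool}
    (h : cN (ext f) n = 1 ∨ cN (nt (ext f)) n = 1) : socialCost ⊤ v f = ⊤ := by
  have hex : ∃ i : Fin n, (coalition f i).card = 1 := by
    rcases h with h | h
    · have hc := h
      rw [← card_true, Finset.card_eq_one] at h
      obtain ⟨i, hi⟩ := h
      have : i ∈ ((univ : Finset (Fin n)).filter fun j : Fin n => ext f j = true) := by
        rw [hi]; simp
      rw [Finset.mem_filter, ext_coe] at this
      refine ⟨i, ?_⟩
      rw [card_coal, if_pos this.2]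
      exact hc
    · have hc := h
      rw [← card_true, Finset.card_eq_one] at h
      obtain ⟨i, hi⟩ := h
      have : i ∈ ((univ : Finset (Fin n)).filter fun j : Fin n => nt (ext f) j = true) := by
        rw [hi]; simp
      rw [Finset.mem_filter] at this
      have h' := this.2
      simp only [nt] at h'
      rw [ext_coe] at h'
      refine ⟨i, ?_⟩
      rw [card_coal, if_neg (by cases hf : f i <;> simp [hf] at h' ⊢)]
      exact hc
  obtain ⟨i, hi⟩ := hex
  rw [socialCost, ENNReal.sum_eq_top]
  exact ⟨i, Finset.mem_univ i, by simp [cost, hi]⟩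

/-- Restriction of the sorted structure to the agents. -/
def cut (n s : ℕ) : Fin n → Bool := fun i => decide ((i : ℕ) < s)

theorem cN_congr {x y : ℕ → Bool} {n : ℕ} (h : ∀ i, i < n → x i = y i) :
    ∀ i, i ≤ n → cN x i = cN y i := by
  intro i
  induction i with
  | zero => intro _; rfl
  | succ i ih =>
    intro hi
    simp only [cN]
    rw [ih (by omega), h i (by omega)]

theorem ext_cut {n s i : ℕ} (hi : i < n) : ext (cut n s) i = srt s i := by
  simp [ext, cut, srt, hi]

theorem G_ext_cut (g : ℕ → ℝ) {n s : ℕ} (hs : s ≤ n) : G g n (ext (cut n s)) = F g n s := by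
  rw [← G_srt g hs]
  have a := cN_congr (n := n) (x := ext (cut n s)) (y := srt s) fun i hi => ext_cut hi
  have b := cN_congr (n := n) (x := nt (ext (cut n s))) (y := nt (srt s)) fun i hi => by
    simp only [nt]; rw [ext_cut hi]
  simp only [G, H]
  refine Finset.sum_congr rfl fun i hi => ?_
  rw [Finset.mem_range] at hi
  rw [a i hi.le, b i hi.le, a n le_rfl, b n le_rfl]

/-- For every instance `v` with at least two agents and both conventions for the cost of a
singleton coalition there is an optimal structure with at most two coalitions that is sorted. -/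
theorem result : ∀ n : ℕ, 2 ≤ n → ∀ v : Fin n → ℝ, Monotone v → ∀ t : ℝ≥0∞, t = 0 ∨ t = ⊤ →
    ∃ f : Fin n → Bool, IsSorted v f ∧ ∀ f' : Fin n → Bool, socialCost t v f ≤ socialCost t v f' := by
  intro n hn v hv t ht
  set w : ℕ → ℝ := fun k => v ⟨min k (n - 1), by omega⟩ with hwd
  have hw : Monotone w := by
    intro a b hab
    apply hv
    rw [Fin.mk_le_mk]
    omega
  have hvw : ∀ i : Fin n, v i = w i := by
    intro i
    simp only [hwd]
    congr 1
    ext
    have := i.2
    simp only []
    omega
  set g : ℕ → ℝ := fun p => w p - w (p - 1) with hgd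
  have hg : ∀ i, 0 ≤ g i := fun i => sub_nonneg.2 (hw (Nat.sub_le _ _))
  have hsorted : ∀ s, s < n → (s = 0 ∨ 0 < g s) → IsSorted v (cut n s) := by
    intro s hs h
    rcases h with h | h
    · subst h
      intro i j l _ _ _
      simp [cut]
    · have h' : w (s - 1) < w s := by
        simp only [hgd] at h
        linarith
      have hs1 : 1 ≤ s := by
        by_contra hcon
        have : s = 0 := by omega
        subst this
        exact lt_irrefl _ h'
      intro i j l hij hil hlj
      rw [hvw i, hvw l] at hil
      rw [hvw l, hvw j] at hlj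
      simp only [cut] at hij ⊢
      rw [decide_eq_decide] at hij ⊢
      constructor
      · intro hl
        by_contra hi
        have a : w s ≤ w i := hw (by omega)
        have b : w l ≤ w (s - 1) := hw (by omega)
        linarith
      · intro hi
        have hj := hij.1 hi
        by_contra hl
        have a : w s ≤ w l := hw (by omega)
        have b : w j ≤ w (s - 1) := hw (by omega)
        linarith
  rcases ht with rfl | rfl
  · obtain ⟨s, hs, hs0, hmin⟩ := best_his hg hn
    refine ⟨cut n s, hsorted s hs hs0, fun f' => ?_⟩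
    rw [sc_his v hw hvw, sc_his v hw hvw]
    apply ENNReal.ofReal_le_ofReal
    rw [G_ext_cut _ hs.le]
    have := all_his hg hn hmin (ext f')
    linarith
  · obtain ⟨s, hs, hs0, hmin⟩ := best_uis hg (n := n)
    have hsn : s < n := by rcases hs with h | h <;> omega
    refine ⟨cut n s, hsorted s hsn hs0, fun f' => ?_⟩
    by_cases h' : cN (ext f') n = 1 ∨ cN (nt (ext f')) n = 1
    · rw [sc_top v h']
      exact le_top
    · rw [not_or] at h'
      have a := cN_congr (n := n) (x := ext (cut n s)) (y := srt s) (fun i hi => ext_cut hi) n le_rfl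
      have b := cN_add (ext (cut n s)) n
      rw [cN_srt] at a
      rw [sc_uis v hw hvw ⊤ (by rcases hs with h | h <;> omega) (by rcases hs with h | h <;> omega),
        sc_uis v hw hvw ⊤ h'.1 h'.2]
      apply ENNReal.ofReal_le_ofReal
      rw [G_ext_cut _ hsn.le]
      have := all_uis hg hmin (ext f') h'.1 h'.2
      linarith

end Pool.Agent.Results.MP_e22fa6_co.SortedOptimum
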